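import Pool.Agent.H74.FS.PlB

/-!
# [H13 WA A] Weak approximation for `F(t)`: an element near `1` at one place and near `0` at the others

`M` = product of the `P` with `some P ∈ S`, `P ≠ w₀`, for `w₀ = some P₀` times `P₀` (so the product of all finite places of `S`
and of `w₀`), `n : ℕ`. For a polynomial `g`: `vw (some P) (iw g) ≤ exp (-n)` if `P ^ n ∣ g` (`H94.PL.wP_self`, `wP_le_one`), and
`vw none (iw g) = exp (natDegree g)` for `g ≠ 0` (`H94.LT.val_inf_poly`).
* `w₀ = some P₀`: there is a polynomial `f` with `P₀ ^ n ∣ f - 1`, `P ^ n ∣ f` for the other finite `P` of `S` (`P₀` is prime to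
  the product of the others: `IsCoprime`), `e = f / (1 + M ^ n t ^ k)` with `k ≥ natDegree f + n`: `1 + M ^ n t ^ k` has value 1 at
  all finite places of `S` and at `w₀`, `e - 1 = ((f - 1) - M ^ n t ^ k) / (1 + M ^ n t ^ k)`; at infinity the value is
  `exp (natDegree f - natDegree (1 + M ^ n t ^ k)) ≤ exp (-n)`.
* `w₀ = none`: `e = M ^ n t ^ n / (1 + M ^ n t ^ n)`.
-/

set_option autoImplicit false

open Polynomial WithZero
open Pool.Agent.H74.FS (Pl Kw iw vw)

namespace Pool.Agent.H13.WA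

variable {F : Type} [Field F] [DecidableEq (RatFunc F)]

private theorem fin_bd {P : F[X]} (hP : P.Monic) (hi : Irreducible P) {g d : F[X]} {m n : ℕ} (hmn : n ≤ m)
    (hg : P ^ m ∣ g) (hd : ¬ P ∣ d) :
    vw (some ⟨P, hP, hi⟩ : Pl F) (iw (some ⟨P, hP, hi⟩ : Pl F)
      (algebraMap F[X] (RatFunc F) g / algebraMap F[X] (RatFunc F) d)) ≤ exp (-(n : ℤ)) := by
  change H94.PL.wP P hi (H94.PL.toP P hi (algebraMap F[X] (RatFunc F) g / algebraMap F[X] (RatFunc F) d)) ≤ _
  obtain ⟨c, rfl⟩ := hg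
  rw [map_div₀, map_div₀, H94.PL.wP_eq_one hi hd, div_one, map_mul, map_mul, map_mul, map_pow, map_pow, map_pow,
    H94.PL.wP_self, ← exp_nsmul]
  refine (mul_le_mul' le_rfl (H94.PL.wP_le_one P hi c)).trans ?_
  rw [mul_one]
  refine exp_le_exp.2 ?_
  simp only [smul_neg, nsmul_eq_mul, mul_one]
  omega

private theorem inf_bd {g d : F[X]} {n : ℕ} (hd : d ≠ 0) (h : g = 0 ∨ g.natDegree + n ≤ d.natDegree) :
    vw (none : Pl F) (iw (none : Pl F)
      (algebraMap F[X] (RatFunc F) g / algebraMap F[X] (RatFunc F) d)) ≤ exp (-(n : ℤ)) := by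
  rcases eq_or_ne g 0 with rfl | hg
  · rw [map_zero, zero_div, map_zero, map_zero]
    exact zero_le
  · have h1 : g.natDegree + n ≤ d.natDegree := h.resolve_left hg
    rw [map_div₀, map_div₀]
    have e1 : vw (none : Pl F) (iw (none : Pl F) (algebraMap F[X] (RatFunc F) g)) = exp (g.natDegree : ℤ) :=
      H94.LT.val_inf_poly hg
    have e2 : vw (none : Pl F) (iw (none : Pl F) (algebraMap F[X] (RatFunc F) d)) = exp (d.natDegree : ℤ) :=
      H94.LT.val_inf_poly hd
    rw [e1, e2, ← exp_sub]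
    exact exp_le_exp.2 (by omega)

omit [DecidableEq (RatFunc F)] in
private theorem not_dvd_den {P M Y : F[X]} (hi : Irreducible P) (m : ℕ) (h : P ∣ M) :
    ¬ P ∣ 1 + M ^ (m + 1) * Y := by
  intro h1
  have h2 : P ∣ M ^ (m + 1) * Y := (dvd_pow h (Nat.succ_ne_zero m)).mul_right Y
  exact hi.not_isUnit (isUnit_of_dvd_one ((dvd_add_left h2).1 h1))

omit [DecidableEq (RatFunc F)] in
private theorem deg_den {M : F[X]} (hM : M.Monic) (m k : ℕ) (hk : 1 ≤ k) :
    k ≤ (1 + M ^ m * X ^ k).natDegree ∧ 1 + M ^ m * X ^ k ≠ 0 := by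
  have h1 : (M ^ m * X ^ k).Monic := (hM.pow m).mul (monic_X_pow k)
  have h2 : (M ^ m * X ^ k).natDegree = m * M.natDegree + k := by
    rw [(hM.pow m).natDegree_mul (monic_X_pow k), natDegree_X_pow, hM.natDegree_pow]
  have h3 : (1 : F[X]).natDegree < (M ^ m * X ^ k).natDegree := by
    rw [natDegree_one, h2]; omega
  have h4 : (1 + M ^ m * X ^ k).natDegree = (M ^ m * X ^ k).natDegree := natDegree_add_eq_right_of_natDegree_lt h3
  refine ⟨by rw [h4, h2]; omega, fun h0 => ?_⟩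
  rw [h0, natDegree_zero, h2] at h4
  omega

/-- the polynomial of a place, `1` at infinity -/
private noncomputable def pol : Pl F → F[X]
  | none => 1
  | some P => P.1

omit [DecidableEq (RatFunc F)] in
private theorem pol_monic (w : Pl F) : (pol w).Monic := by
  rcases w with _ | P
  · exact monic_one
  · exact P.2.1

omit [DecidableEq (RatFunc F)] in
private theorem pr_monic (T : Finset (Pl F)) : (∏ w ∈ T, pol w).Monic :=
  monic_prod_of_monic _ _ (fun w _ => pol_monic w)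

omit [DecidableEq (RatFunc F)] in
private theorem pr_dvd (T : Finset (Pl F)) {P : F[X]} (hP : P.Monic) (hi : Irreducible P)
    (h : (some ⟨P, hP, hi⟩ : Pl F) ∈ T) : P ∣ ∏ w ∈ T, pol w := by
  have h1 : pol (some ⟨P, hP, hi⟩ : Pl F) ∣ ∏ w ∈ T, pol w := Finset.dvd_prod_of_mem pol h
  exact h1

theorem sep_one (S : Finset (Pl F)) (w₀ : Pl F) (n : ℕ) : ∃ e : RatFunc F,
    vw w₀ (iw w₀ (e - 1)) ≤ exp (-(n : ℤ)) ∧ ∀ w ∈ S, w ≠ w₀ → vw w (iw w e) ≤ exp (-(n : ℤ)) := by
  classical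
  rcases w₀ with _ | ⟨P₀, hP₀, hi₀⟩
  · -- infinity
    set M := ∏ w ∈ S, pol w with hM
    have hMm : M.Monic := pr_monic S
    obtain ⟨hk, hd⟩ := deg_den hMm (n + 1) (n + 1) (by omega)
    refine ⟨algebraMap F[X] (RatFunc F) (M ^ (n + 1) * X ^ (n + 1)) /
      algebraMap F[X] (RatFunc F) (1 + M ^ (n + 1) * X ^ (n + 1)), ?_, ?_⟩
    · have hd' : algebraMap F[X] (RatFunc F) (1 + M ^ (n + 1) * X ^ (n + 1)) ≠ 0 :=
        RatFunc.algebraMap_ne_zero hd
      have e : algebraMap F[X] (RatFunc F) (M ^ (n + 1) * X ^ (n + 1)) /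
          algebraMap F[X] (RatFunc F) (1 + M ^ (n + 1) * X ^ (n + 1)) - 1 =
          algebraMap F[X] (RatFunc F) (-1) / algebraMap F[X] (RatFunc F) (1 + M ^ (n + 1) * X ^ (n + 1)) := by
        rw [div_sub_one hd', ← map_sub]
        congr 2
        ring
      rw [e]
      refine inf_bd hd (Or.inr ?_)
      rw [natDegree_neg, natDegree_one]
      omega
    · rintro (_ | ⟨P, hP, hi⟩) hw hne
      · exact absurd rfl hne
      · have hPM : P ∣ M := pr_dvd S hP hi hw
        exact fin_bd hP hi (Nat.le_succ n) ((pow_dvd_pow_of_dvd hPM (n + 1)).mul_right _)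
          (not_dvd_den hi n hPM)
  · set R := ∏ w ∈ S.erase (some ⟨P₀, hP₀, hi₀⟩), pol w with hR
    have hcop : IsCoprime (P₀ ^ (n + 1)) (R ^ (n + 1)) := by
      refine IsCoprime.pow ?_
      refine IsCoprime.prod_right (fun w hw => ?_)
      rcases w with _ | ⟨P, hP, hi⟩
      · exact isCoprime_one_right
      · refine (hi₀.coprime_iff_not_dvd).2 (fun hdv => ?_)
        have hass : Associated P₀ P := hi₀.associated_of_dvd hi hdv
        have heq : P₀ = P := eq_of_monic_of_associated hP₀ hP hass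
        have := Finset.ne_of_mem_erase hw
        apply this
        subst heq
        rfl
    obtain ⟨a, b, hab⟩ := hcop
    set f := b * R ^ (n + 1) with hf
    set k := f.natDegree + n + 1 with hk
    set M := P₀ * R with hM
    have hMm : M.Monic := hP₀.mul (pr_monic _)
    obtain ⟨hkd, hd⟩ := deg_den hMm (n + 1) k (by omega)
    have hd' : algebraMap F[X] (RatFunc F) (1 + M ^ (n + 1) * X ^ k) ≠ 0 := RatFunc.algebraMap_ne_zero hd
    refine ⟨algebraMap F[X] (RatFunc F) f / algebraMap F[X] (RatFunc F) (1 + M ^ (n + 1) * X ^ k), ?_, ?_⟩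
    · have e : algebraMap F[X] (RatFunc F) f / algebraMap F[X] (RatFunc F) (1 + M ^ (n + 1) * X ^ k) - 1 =
          algebraMap F[X] (RatFunc F) (f - (1 + M ^ (n + 1) * X ^ k)) /
            algebraMap F[X] (RatFunc F) (1 + M ^ (n + 1) * X ^ k) := by
        rw [div_sub_one hd', ← map_sub]
      rw [e]
      refine fin_bd hP₀ hi₀ (Nat.le_succ n) ?_ (not_dvd_den hi₀ n (Dvd.intro _ rfl))
      have e2 : f - (1 + M ^ (n + 1) * X ^ k) = P₀ ^ (n + 1) * (-a - R ^ (n + 1) * X ^ k) := by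
        have : f = 1 - a * P₀ ^ (n + 1) := by rw [hf, ← hab]; ring
        rw [this, hM]; ring
      exact e2 ▸ Dvd.intro _ rfl
    · rintro (_ | ⟨P, hP, hi⟩) hw hne
      · exact inf_bd hd (Or.inr (by omega))
      · have hPR : P ∣ R := pr_dvd _ hP hi (Finset.mem_erase.2 ⟨hne, hw⟩)
        exact fin_bd hP hi (Nat.le_succ n) ((pow_dvd_pow_of_dvd hPR (n + 1)).mul_left _)
          (not_dvd_den hi n (hPR.mul_left _))

end Pool.Agent.H13.WA
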