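import Pool.Agent.H13.WA.A

/-!
# [H13 WA B] Weak approximation for `F(t)`

* `dens`: `RatFunc F` is dense in the completion (`H94.LT.dense_inf` for `none`; for `some P` the `adicCompletion` is a completion,
  or `H94.TC.exists_approx` for `P ^ k x`); `{y | v (x - y) < exp (-n)}` is open (`Valued.isOpen_ball`, `Valued.mem_nhds`).
* `weak`: `y_w` near `x w` for `w ∈ S` (`dens`), `C : ℕ` with `vw w (iw w (y_w')) ≤ exp C` for all `w, w' ∈ S`, `e_w` as in
  `sep_one` with precision `N + C`, `N ≥ n`, `N ≥ 0`; `y = ∑_(w ∈ S) e_w y_w`: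
  `x w - y = (x w - y_w) - (e_w - 1) y_w - ∑_(w' ≠ w) e_w' y_w'`.
-/

set_option autoImplicit false

open Polynomial WithZero
open Pool.Agent.H74.FS (Pl Kw iw vw)

namespace Pool.Agent.H13.WA

variable {F : Type} [Field F] [DecidableEq (RatFunc F)]

omit [DecidableEq (RatFunc F)] in
private theorem dens_aux {M : Type} [Field M] [Valued M ℤᵐ⁰] {f : RatFunc F → M}
    (hf : DenseRange f) {ϖ : M} (hϖ : (Valued.v ϖ : ℤᵐ⁰) = exp (-1 : ℤ)) (x : M) (n : ℤ) :
    ∃ y : RatFunc F, (Valued.v (x - f y) : ℤᵐ⁰) ≤ exp (-n) := by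
  have hϖ0 : ϖ ≠ 0 := by
    rintro rfl
    rw [map_zero] at hϖ
    exact exp_ne_zero hϖ.symm
  obtain ⟨u, hu⟩ : ∃ u, u = ϖ ^ n := ⟨_, rfl⟩
  have hu0 : u ≠ 0 := hu ▸ zpow_ne_zero n hϖ0
  have hv : (Valued.v u : ℤᵐ⁰) = exp (-n) := by
    rw [hu, map_zpow₀, hϖ, ← exp_zsmul]
    congr 1
    simp
  have h1 : {y : M | (Valued.v (y - x) : ℤᵐ⁰) < exp (-n)} ∈ nhds x := by
    have h2 : ContinuousAt (fun y : M => (y - x) / u) x := by
      fun_prop (disch := assumption)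
    have h3 : {y : M | (Valued.v y : ℤᵐ⁰) < 1} ∈ nhds (x - x) := by
      rw [sub_self, Valued.mem_nhds_zero]
      refine ⟨1, ?_⟩
      intro y hy
      simpa [Valuation.restrict_lt_one_iff] using hy
    have h4 := h2.preimage_mem_nhds (t := {y : M | (Valued.v y : ℤᵐ⁰) < 1}) (by simpa using h3)
    filter_upwards [h4] with y hy
    have h5 : (Valued.v ((y - x) / u) : ℤᵐ⁰) < 1 := hy
    rw [map_div₀, hv, div_lt_one₀ (by simp)] at h5
    exact h5
  obtain ⟨z, hz⟩ := hf.exists_mem_open isOpen_interior ⟨x, mem_interior_iff_mem_nhds.2 h1⟩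
  refine ⟨z, ?_⟩
  have h5 := interior_subset hz
  have h6 : (Valued.v (f z - x) : ℤᵐ⁰) < exp (-n) := h5
  rw [Valuation.map_sub_swap]
  exact h6.le

theorem dens (w : Pl F) (x : Kw F w) (n : ℤ) : ∃ y : RatFunc F, vw w (x - iw w y) ≤ exp (-n) := by
  obtain ⟨ϖ, hϖ⟩ := H74.FS.unif_w w
  refine dens_aux ?_ hϖ x n
  rcases w with _ | ⟨P, hP, hi⟩
  · exact H94.LT.dense_inf
  · exact IsDedekindDomain.HeightOneSpectrum.denseRange_algebraMap (RatFunc F)
      (H94.LT.place P hi)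

private theorem exp_nat (v : ℤᵐ⁰) : ∃ R : ℕ, v ≤ exp (R : ℤ) := by
  by_cases hx : v = 0
  · exact ⟨0, by rw [hx]; exact zero_le⟩
  · refine ⟨(log v).toNat, ?_⟩
    calc v = exp (log v) := (exp_log hx).symm
      _ ≤ exp ((log v).toNat : ℤ) := exp_le_exp.2 (Int.self_le_toNat _)

theorem weak (S : Finset (Pl F)) (x : ∀ w : Pl F, Kw F w) (n : ℤ) :
    ∃ y : RatFunc F, ∀ w ∈ S, vw w (x w - iw w y) ≤ exp (-n) := by
  classical
  choose y hy using fun w => dens w (x w) n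
  choose k hk using fun w w' : Pl F => exp_nat (vw w (iw w (y w')))
  obtain ⟨C, hC⟩ : ∃ C, C = ∑ w ∈ S, ∑ w' ∈ S, k w w' := ⟨_, rfl⟩
  have hkC : ∀ w ∈ S, ∀ w' ∈ S, vw w (iw w (y w')) ≤ exp (C : ℤ) := by
    intro w hw w' hw'
    refine (hk w w').trans (exp_le_exp.2 ?_)
    have h1 : k w w' ≤ ∑ w' ∈ S, k w w' := Finset.single_le_sum (fun _ _ => Nat.zero_le _) hw'
    have h2 : ∑ w' ∈ S, k w w' ≤ C := by
      rw [hC]
      exact Finset.single_le_sum (f := fun w => ∑ w' ∈ S, k w w') (fun _ _ => Nat.zero_le _) hw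
    exact_mod_cast h1.trans h2
  choose e he he' using fun w => sep_one S w (n.toNat + C)
  have hn : n ≤ (n.toNat : ℤ) := Int.self_le_toNat n
  refine ⟨∑ w' ∈ S, e w' * y w', fun w hw => ?_⟩
  have h1 : x w - iw w (∑ w' ∈ S, e w' * y w') = (x w - iw w (y w)) -
      iw w (e w - 1) * iw w (y w) - ∑ w' ∈ S.erase w, iw w (e w') * iw w (y w') := by
    rw [map_sum, ← Finset.add_sum_erase _ _ hw, map_mul, map_sub, map_one]
    have h2 : ∑ w' ∈ S.erase w, iw w (e w' * y w') =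
        ∑ w' ∈ S.erase w, iw w (e w') * iw w (y w') :=
      Finset.sum_congr rfl fun _ _ => map_mul _ _ _
    rw [h2]
    ring
  have h3 : ∀ a b : Kw F w, vw w a ≤ exp (-((n.toNat + C : ℕ) : ℤ)) → vw w b ≤ exp (C : ℤ) →
      vw w (a * b) ≤ exp (-n) := by
    intro a b ha hb
    rw [map_mul]
    calc vw w a * vw w b ≤ exp (-((n.toNat + C : ℕ) : ℤ)) * exp (C : ℤ) := mul_le_mul' ha hb
      _ = exp (-((n.toNat + C : ℕ) : ℤ) + (C : ℤ)) := (exp_add _ _).symm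
      _ ≤ exp (-n) := exp_le_exp.2 (by push_cast; linarith)
  rw [h1]
  refine ((vw w).map_sub _ _).trans (max_le (((vw w).map_sub _ _).trans (max_le (hy w) ?_)) ?_)
  · exact h3 _ _ (he w) (hkC w hw w hw)
  · refine (vw w).map_sum_le fun w' hw' => ?_
    obtain ⟨hne, hw'⟩ := Finset.mem_erase.1 hw'
    exact h3 _ _ (he' w' w hw hne.symm) (hkC w hw w' hw')

end Pool.Agent.H13.WA
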