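import Mathlib

/-!
# [H13 WA C] Parametrisation of a conic with a point, and its continuity

`q(u) = ∑ a_i u_i ^ 2`, `B(z, u) = 2 ∑ a_i z_i u_i`, `par a z₀ l u = l (q(u) z₀ - B(z₀, u) u)`, `q(z₀) = 0`.
* `par_zero`: `q(α z₀ + β u) = α β B(z₀, u) + β ^ 2 q(u)`, `α = q(u)`, `β = - B(z₀, u)`. (`ring` after expanding the sums over
  `Fin 3`; use `q(z₀) = 0` as a linear combination.)
* `par_surj`: `q(z) = 0`. If `B(z₀, z) ≠ 0`: `l = - 1 / B(z₀, z)`, `u = z`. If `B(z₀, z) = 0`: let `z₀_k ≠ 0`, `i, j` the other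
  indices. `z' = z - (z_k / z₀_k) z₀`: `z'_k = 0`, `q(z') = 0`, `B(z₀, z') = 0`: `a_i z₀_i z'_i = - a_j z₀_j z'_j` and
  `a_i z'_i ^ 2 = - a_j z'_j ^ 2`, so `- a_i z'_i ^ 2 a_k z₀_k ^ 2 = a_i z'_i ^ 2 (a_i z₀_i ^ 2 + a_j z₀_j ^ 2) = 0`: `z' = 0`,
  `z = μ z₀`. `u = a_j z₀_j e_i - a_i z₀_i e_j`: `B(z₀, u) = 0`, `q(u) = - a_i a_j a_k z₀_k ^ 2 ≠ 0`, `l = μ / q(u)`.
* `par_cont`: in a field with a valuation: `par a z₀ l' u'` is near `par a z₀ l u` if `l'` is near `l`, `u'` near `u`. (All the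
  coordinates are polynomials in `l`, `u`; use the topology of `Valued.mk'`, or: let `R ≥ 1` bound the values of `2`, `a_i`,
  `z₀_i`, `l`, `u_i`; for `γ ≤ 1` the differences of the monomials are bounded by `R ^ 6 γ`: take `γ = ε / R ^ 6` or smaller.
  A product `∏ x_i` changes by at most `R ^ (k - 1) γ` if each factor changes by at most `γ ≤ 1 ≤ R`.)
-/

set_option autoImplicit false

open WithZero

namespace Pool.Agent.H13.WA

variable {K : Type*} [Field K]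

/-- the conic with equation `∑ a_i u_i ^ 2 = 0` and the point `z₀` is parametrised by `par a z₀` -/
def par (a z₀ : Fin 3 → K) (l : K) (u : Fin 3 → K) (i : Fin 3) : K :=
  l * ((∑ j, a j * u j ^ 2) * z₀ i - 2 * (∑ j, a j * z₀ j * u j) * u i)

theorem par_zero {a z₀ : Fin 3 → K} (h : ∑ j, a j * z₀ j ^ 2 = 0) (l : K) (u : Fin 3 → K) :
    ∑ i, a i * par a z₀ l u i ^ 2 = 0 := by
  simp only [Fin.sum_univ_three] at h
  simp only [par, Fin.sum_univ_three]
  linear_combination (l ^ 2 * (a 0 * u 0 ^ 2 + a 1 * u 1 ^ 2 + a 2 * u 2 ^ 2) ^ 2) * h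

private theorem surj_aux (a z₀ z : Fin 3 → K) (ha : ∀ i, a i ≠ 0) (i j k : Fin 3)
    (hs : ∀ f : Fin 3 → K, ∑ t, f t = f i + f j + f k) (hall : ∀ t : Fin 3, t = i ∨ t = j ∨ t = k)
    (hij : i ≠ j) (hik : i ≠ k) (hjk : j ≠ k)
    (hk : z₀ k ≠ 0) (h : ∑ t, a t * z₀ t ^ 2 = 0) (hz : ∑ t, a t * z t ^ 2 = 0)
    (hB : ∑ t, a t * z₀ t * z t = 0) : ∃ (l : K) (u : Fin 3 → K), z = par a z₀ l u := by
  rw [hs] at h hz hB
  obtain ⟨μ, hμ⟩ : ∃ μ : K, z k = μ * z₀ k := ⟨z k / z₀ k, by field_simp⟩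
  -- z' = z - μ z₀
  have e1 : a i * z₀ i * (z i - μ * z₀ i) = -(a j * z₀ j * (z j - μ * z₀ j)) := by
    rw [hμ] at hB
    linear_combination hB - μ * h
  have e2 : a i * (z i - μ * z₀ i) ^ 2 = -(a j * (z j - μ * z₀ j) ^ 2) := by
    rw [hμ] at hB hz
    linear_combination hz - 2 * μ * hB + μ ^ 2 * h
  have key : ∀ (s t : Fin 3) (x y : K), a s * z₀ s * x = -(a t * z₀ t * y) → a s * x ^ 2 = -(a t * y ^ 2) →
      a s * z₀ s ^ 2 + a t * z₀ t ^ 2 + a k * z₀ k ^ 2 = 0 → x = 0 := by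
    intro s t x y h1 h3 h4
    have h5 : a s * a k * (x * z₀ k) ^ 2 = 0 := by
      have h6 : (a s * z₀ s * x) ^ 2 = (a t * z₀ t * y) ^ 2 := by rw [h1]; ring
      -- (a_s z_s x)^2 = (a_t z_t y)^2 = - a_t z_t^2 a_s x^2
      have h7 : a s * (a s * z₀ s ^ 2 * x ^ 2) = -(a t * z₀ t ^ 2 * (a s * x ^ 2)) := by
        have : (a t * z₀ t * y) ^ 2 = a t * z₀ t ^ 2 * (a t * y ^ 2) := by ring
        rw [this] at h6
        have h8 : a t * y ^ 2 = -(a s * x ^ 2) := by linear_combination h3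
        rw [h8] at h6
        linear_combination h6
      linear_combination a s * x ^ 2 * h4 - h7
    have h6 : (x * z₀ k) ^ 2 = 0 := by
      rcases mul_eq_zero.1 h5 with h7 | h7
      · rcases mul_eq_zero.1 h7 with h8 | h8
        · exact absurd h8 (ha _)
        · exact absurd h8 (ha _)
      · exact h7
    have h7 := pow_eq_zero_iff (two_ne_zero) |>.1 h6
    rcases mul_eq_zero.1 h7 with h8 | h8
    · exact h8
    · exact absurd h8 hk
  have zi : z i = μ * z₀ i := by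
    have := key i j _ _ e1 e2 h
    linear_combination this
  have zj : z j = μ * z₀ j := by
    have := key j i (z j - μ * z₀ j) (z i - μ * z₀ i) (by linear_combination e1) (by linear_combination e2)
      (by linear_combination h)
    linear_combination this
  -- u = a_j z₀_j e_i - a_i z₀_i e_j
  set u : Fin 3 → K := fun t => if t = i then a j * z₀ j else if t = j then -(a i * z₀ i) else 0 with hu
  have ui : u i = a j * z₀ j := by simp [hu]
  have uj : u j = -(a i * z₀ i) := by simp [hu, hij.symm]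
  have uk : u k = 0 := by simp [hu, hik.symm, hjk.symm]
  have q1 : ∑ t, a t * z₀ t * u t = 0 := by
    rw [hs, ui, uj, uk]; ring
  have q2 : ∑ t, a t * u t ^ 2 = -(a i * a j * a k * z₀ k ^ 2) := by
    rw [hs, ui, uj, uk]
    linear_combination a i * a j * h
  have q3 : a i * a j * a k * z₀ k ^ 2 ≠ 0 :=
    mul_ne_zero (mul_ne_zero (mul_ne_zero (ha _) (ha _)) (ha _)) (pow_ne_zero _ hk)
  refine ⟨-(μ / (a i * a j * a k * z₀ k ^ 2)), u, ?_⟩
  funext t
  have hzt : z t = μ * z₀ t := by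
    rcases hall t with rfl | rfl | rfl
    · exact zi
    · exact zj
    · exact hμ
  rw [par, q1, q2, hzt]
  have hd : μ / (a i * a j * a k * z₀ k ^ 2) * (a i * a j * a k * z₀ k ^ 2) = μ := div_mul_cancel₀ _ q3
  linear_combination (-(z₀ t)) * hd

theorem par_surj (h2 : (2 : K) ≠ 0) {a z₀ : Fin 3 → K} (ha : ∀ i, a i ≠ 0) (hz : z₀ ≠ 0)
    (h : ∑ j, a j * z₀ j ^ 2 = 0) {z : Fin 3 → K} (hz0 : ∑ j, a j * z j ^ 2 = 0) :
    ∃ (l : K) (u : Fin 3 → K), z = par a z₀ l u := by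
  by_cases hB : ∑ t, a t * z₀ t * z t = 0
  · obtain ⟨k, hk⟩ : ∃ k, z₀ k ≠ 0 := by
      by_contra hc
      push Not at hc
      exact hz (funext hc)
    have hk' : k = 0 ∨ k = 1 ∨ k = 2 := by fin_cases k <;> simp
    rcases hk' with rfl | rfl | rfl
    · exact surj_aux a z₀ z ha 1 2 0 (fun f => by rw [Fin.sum_univ_three]; ring)
        (fun t => by fin_cases t <;> simp) (by decide) (by decide) (by decide) hk h hz0 hB
    · exact surj_aux a z₀ z ha 0 2 1 (fun f => by rw [Fin.sum_univ_three]; ring)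
        (fun t => by fin_cases t <;> simp) (by decide) (by decide) (by decide) hk h hz0 hB
    · exact surj_aux a z₀ z ha 0 1 2 (fun f => by rw [Fin.sum_univ_three])
        (fun t => by fin_cases t <;> simp) (by decide) (by decide) (by decide) hk h hz0 hB
  · refine ⟨-(1 / (2 * ∑ t, a t * z₀ t * z t)), z, ?_⟩
    funext i
    rw [par, hz0]
    field_simp
    ring

theorem par_map {K' : Type*} [Field K'] (f : K →+* K') (a z₀ : Fin 3 → K) (l : K) (u : Fin 3 → K)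
    (i : Fin 3) : f (par a z₀ l u i) = par (fun j => f (a j)) (fun j => f (z₀ j)) (f l) (fun j => f (u j)) i := by
  simp only [par, Fin.sum_univ_three, map_mul, map_sub, map_add, map_pow, map_ofNat]


/-- the valuation of a difference of products -/
private theorem mul_near (v : Valuation K ℤᵐ⁰) {x y x' y' : K} {R γ : ℤᵐ⁰} (hR : 1 ≤ R) (hx : v x ≤ R) (hy : v y ≤ R)
    (hγ : γ ≤ 1) (h1 : v (x - x') ≤ γ) (h2 : v (y - y') ≤ γ) : v (x * y - x' * y') ≤ R * γ := by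
  have hy' : v y' ≤ R := by
    have : y' = y - (y - y') := by ring
    rw [this]
    exact (v.map_sub _ _).trans (max_le hy (h2.trans (hγ.trans hR)))
  have e : x * y - x' * y' = x * (y - y') + (x - x') * y' := by ring
  rw [e]
  refine (v.map_add _ _).trans (max_le ?_ ?_)
  · rw [map_mul]; exact mul_le_mul' hx h2
  · rw [map_mul, mul_comm]; exact mul_le_mul' hy' h1

private theorem exp_bd (x : ℤᵐ⁰) : ∃ c : ℤ, 0 ≤ c ∧ x ≤ exp c := by
  by_cases hx : x = 0
  · exact ⟨0, le_rfl, by rw [hx]; exact zero_le⟩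
  · refine ⟨max 0 (log x), le_max_left _ _, ?_⟩
    calc x = exp (log x) := (exp_log hx).symm
      _ ≤ exp (max 0 (log x)) := exp_le_exp.2 (le_max_right _ _)

/-- continuity at `(l, u)` -/
private def Ct (v : Valuation K ℤᵐ⁰) (l : K) (u : Fin 3 → K) (g : K → (Fin 3 → K) → K) : Prop :=
  ∀ n : ℤ, ∃ N : ℤ, ∀ (l' : K) (u' : Fin 3 → K), v (l - l') ≤ exp (-N) → (∀ i, v (u i - u' i) ≤ exp (-N)) →
    v (g l u - g l' u') ≤ exp (-n)

private theorem ct_const (v : Valuation K ℤᵐ⁰) (l : K) (u : Fin 3 → K) (c : K) : Ct v l u (fun _ _ => c) := by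
  intro n
  refine ⟨0, fun l' u' _ _ => ?_⟩
  simp

private theorem ct_l (v : Valuation K ℤᵐ⁰) (l : K) (u : Fin 3 → K) : Ct v l u (fun l _ => l) :=
  fun n => ⟨n, fun _ _ h _ => h⟩

private theorem ct_u (v : Valuation K ℤᵐ⁰) (l : K) (u : Fin 3 → K) (i : Fin 3) : Ct v l u (fun _ u => u i) :=
  fun n => ⟨n, fun _ _ _ h => h i⟩

private theorem ct_add {v : Valuation K ℤᵐ⁰} {l : K} {u : Fin 3 → K} {g h : K → (Fin 3 → K) → K}
    (hg : Ct v l u g) (hh : Ct v l u h) : Ct v l u (fun l u => g l u + h l u) := by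
  intro n
  obtain ⟨N1, h1⟩ := hg n
  obtain ⟨N2, h2⟩ := hh n
  refine ⟨max N1 N2, fun l' u' hl hu => ?_⟩
  have e1 : (exp (-(max N1 N2)) : ℤᵐ⁰) ≤ exp (-N1) := exp_le_exp.2 (by omega)
  have e2 : (exp (-(max N1 N2)) : ℤᵐ⁰) ≤ exp (-N2) := exp_le_exp.2 (by omega)
  have q1 := h1 l' u' (hl.trans e1) (fun i => (hu i).trans e1)
  have q2 := h2 l' u' (hl.trans e2) (fun i => (hu i).trans e2)
  have e : g l u + h l u - (g l' u' + h l' u') = (g l u - g l' u') + (h l u - h l' u') := by ring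
  rw [e]
  exact (v.map_add _ _).trans (max_le q1 q2)

private theorem ct_mul {v : Valuation K ℤᵐ⁰} {l : K} {u : Fin 3 → K} {g h : K → (Fin 3 → K) → K}
    (hg : Ct v l u g) (hh : Ct v l u h) : Ct v l u (fun l u => g l u * h l u) := by
  intro n
  obtain ⟨c1, hc1, b1⟩ := exp_bd (v (g l u))
  obtain ⟨c2, hc2, b2⟩ := exp_bd (v (h l u))
  set m : ℤ := max 0 (n + max c1 c2) with hm
  obtain ⟨N1, h1⟩ := hg m
  obtain ⟨N2, h2⟩ := hh m
  refine ⟨max N1 N2, fun l' u' hl hu => ?_⟩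
  have e1 : (exp (-(max N1 N2)) : ℤᵐ⁰) ≤ exp (-N1) := exp_le_exp.2 (by omega)
  have e2 : (exp (-(max N1 N2)) : ℤᵐ⁰) ≤ exp (-N2) := exp_le_exp.2 (by omega)
  have q1 := h1 l' u' (hl.trans e1) (fun i => (hu i).trans e1)
  have q2 := h2 l' u' (hl.trans e2) (fun i => (hu i).trans e2)
  have b1' : v (g l u) ≤ exp (max c1 c2) := b1.trans (exp_le_exp.2 (le_max_left _ _))
  have b2' : v (h l u) ≤ exp (max c1 c2) := b2.trans (exp_le_exp.2 (le_max_right _ _))
  have r1 : (1 : ℤᵐ⁰) ≤ exp (max c1 c2) := by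
    rw [← exp_zero]; exact exp_le_exp.2 (le_max_of_le_left hc1)
  have r2 : (exp (-m) : ℤᵐ⁰) ≤ 1 := by
    rw [← exp_zero]; exact exp_le_exp.2 (by omega)
  refine (mul_near v r1 b1' b2' r2 q1 q2).trans ?_
  rw [← exp_add]
  exact exp_le_exp.2 (by omega)

theorem par_cont (v : Valuation K ℤᵐ⁰) (a z₀ : Fin 3 → K) (l : K) (u : Fin 3 → K) (n : ℤ) :
    ∃ N : ℤ, ∀ (l' : K) (u' : Fin 3 → K), v (l - l') ≤ exp (-N) → (∀ i, v (u i - u' i) ≤ exp (-N)) →
      ∀ i, v (par a z₀ l u i - par a z₀ l' u' i) ≤ exp (-n) := by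
  have key : ∀ i, Ct v l u (fun l u => par a z₀ l u i) := by
    intro i
    have hsq : ∀ j, Ct v l u (fun _ u => a j * (u j * u j)) := fun j =>
      ct_mul (ct_const v l u (a j)) (ct_mul (ct_u v l u j) (ct_u v l u j))
    have hli : ∀ j, Ct v l u (fun _ u => a j * z₀ j * u j) := fun j =>
      ct_mul (ct_const v l u (a j * z₀ j)) (ct_u v l u j)
    have h1 := ct_mul (ct_l v l u) (ct_add (ct_mul (ct_add (ct_add (hsq 0) (hsq 1)) (hsq 2)) (ct_const v l u (z₀ i)))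
      (ct_mul (ct_const v l u (-2)) (ct_mul (ct_add (ct_add (hli 0) (hli 1)) (hli 2)) (ct_u v l u i))))
    have e : (fun (l : K) (u : Fin 3 → K) => par a z₀ l u i) =
        fun (l : K) (u : Fin 3 → K) => l * ((a 0 * (u 0 * u 0) + a 1 * (u 1 * u 1) + a 2 * (u 2 * u 2)) * z₀ i +
        -2 * ((a 0 * z₀ 0 * u 0 + a 1 * z₀ 1 * u 1 + a 2 * z₀ 2 * u 2) * u i)) := by
      funext l u
      simp only [par, Fin.sum_univ_three]
      ring
    rw [e]
    exact h1
  choose N hN using fun i => key i n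
  refine ⟨max (N 0) (max (N 1) (N 2)), fun l' u' hl hu i => ?_⟩
  have e1 : (exp (-(max (N 0) (max (N 1) (N 2)))) : ℤᵐ⁰) ≤ exp (-N i) := by
    refine exp_le_exp.2 ?_
    fin_cases i <;> simp
  exact hN i l' u' (hl.trans e1) (fun j => (hu j).trans e1)

end Pool.Agent.H13.WA
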