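import Pool.Agent.H13.WA.B
import Pool.Agent.H13.WA.C

/-!
# [H13 WA D] Weak approximation on a conic

* `conic_approx`: `z w = par (l w) (u w)` for `w ∈ S` (`par_surj` over `Kw F w`, with `iw w (a i)`, `iw w (z₀ i)`), `N w` as in
  `par_cont`, `N` = maximum over `S`; `l', u'` in `RatFunc F` as in `weak` (four times); `y = par a z₀ l' u'` (`par_map`,
  `par_zero`).
* `conic_class`: `c = ∑ b_i z_i ^ 2 ≠ 0`, `y` as in `conic_approx` with `n` so large that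
  `v (∑ b_i (y_i ^ 2 - z_i ^ 2)) < v c` at all `w ∈ S`: `y_i ^ 2 - z_i ^ 2 = (y_i - z_i) (2 z_i + (y_i - z_i))`. So
  `v (∑ b_i y_i ^ 2 / c - 1) < 1`: a square (`H74.FS.sq_near`).
-/

set_option autoImplicit false

open Polynomial WithZero
open Pool.Agent.H74.FS (Pl Kw iw vw)

namespace Pool.Agent.H13.WA

variable {F : Type} [Field F] [DecidableEq (RatFunc F)]

theorem conic_approx (hq : (2 : F) ≠ 0) (S : Finset (Pl F)) {a z₀ : Fin 3 → RatFunc F}
    (ha : ∀ i, a i ≠ 0) (hz : z₀ ≠ 0) (h : ∑ i, a i * z₀ i ^ 2 = 0) (z : ∀ w : Pl F, Fin 3 → Kw F w)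
    (hz0 : ∀ w ∈ S, ∑ i, iw w (a i) * z w i ^ 2 = 0) (n : ℤ) :
    ∃ y : Fin 3 → RatFunc F, ∑ i, a i * y i ^ 2 = 0 ∧
      ∀ w ∈ S, ∀ i, vw w (z w i - iw w (y i)) ≤ exp (-n) := by
  classical
  have hmap : ∀ w : Pl F, ∑ i, iw w (a i) * iw w (z₀ i) ^ 2 = 0 := by
    intro w
    have h1 := congrArg (iw w) h
    rw [map_sum, map_zero] at h1
    rw [← h1]
    exact Finset.sum_congr rfl fun i _ => by rw [map_mul, map_pow]
  have h2 : ∀ w : Pl F, (2 : Kw F w) ≠ 0 := by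
    intro w h0
    have h1 : (iw w).comp (algebraMap F (RatFunc F)) 2 = 0 := by
      rw [map_ofNat, h0]
    exact hq ((map_eq_zero _).1 h1)
  have hz' : ∀ w : Pl F, (fun i => iw w (z₀ i)) ≠ 0 := by
    intro w h0
    apply hz
    funext i
    have h1 : iw w (z₀ i) = 0 := congrFun h0 i
    exact (map_eq_zero _).1 h1
  have hex : ∀ w : Pl F, ∃ (l : Kw F w) (u : Fin 3 → Kw F w), w ∈ S →
      z w = par (fun i => iw w (a i)) (fun i => iw w (z₀ i)) l u := by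
    intro w
    by_cases hw : w ∈ S
    · obtain ⟨l, u, hlu⟩ := par_surj (h2 w) (a := fun i => iw w (a i))
        (z₀ := fun i => iw w (z₀ i)) (fun i => H74.FS.iw_ne (ha i)) (hz' w) (hmap w)
        (hz0 w hw)
      exact ⟨l, u, fun _ => hlu⟩
    · exact ⟨0, 0, fun h => absurd h hw⟩
  choose l u hlu using hex
  choose N hN using fun w : Pl F => par_cont (vw w) (fun i => iw w (a i))
    (fun i => iw w (z₀ i)) (l w) (u w) n
  obtain ⟨M, hM⟩ := (S.image N).exists_le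
  have hM' : ∀ w ∈ S, exp (-M) ≤ (exp (-(N w)) : ℤᵐ⁰) := by
    intro w hw
    rw [exp_le_exp, neg_le_neg_iff]
    exact hM _ (Finset.mem_image_of_mem N hw)
  obtain ⟨l', hl'⟩ := weak S l M
  choose u' hu' using fun i : Fin 3 => weak S (fun w => u w i) M
  refine ⟨par a z₀ l' u', par_zero h l' u', fun w hw i => ?_⟩
  rw [par_map (iw w), hlu w hw]
  exact hN w (iw w l') (fun j => iw w (u' j)) ((hl' w hw).trans (hM' w hw))
    (fun j => (hu' j w hw).trans (hM' w hw)) i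

private theorem wad_bd (x : ℤᵐ⁰) : ∃ r : ℤ, 0 ≤ r ∧ x ≤ exp r := by
  by_cases hx : x = 0
  · exact ⟨0, le_rfl, by rw [hx]; exact zero_le⟩
  · refine ⟨max 0 (log x), le_max_left _ _, ?_⟩
    conv_lhs => rw [← exp_log hx]
    rw [exp_le_exp]
    exact le_max_right _ _

/-- the precision which is necessary at one place -/
private theorem wad_cont {K : Type} [Field K] (v : Valuation K ℤᵐ⁰) (b z : Fin 3 → K)
    (hc : ∑ i, b i * z i ^ 2 ≠ 0) : ∃ n : ℤ, ∀ y : Fin 3 → K, (∀ i, v (z i - y i) ≤ exp (-n)) →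
      v ((∑ i, b i * y i ^ 2) / (∑ i, b i * z i ^ 2) - 1) < 1 := by
  obtain ⟨c, hcdef⟩ : ∃ c, c = ∑ i, b i * z i ^ 2 := ⟨_, rfl⟩
  rw [← hcdef] at hc ⊢
  have hvc : v c ≠ 0 := (Valuation.ne_zero_iff v).2 hc
  choose r hr0 hr using fun i : Fin 3 => wad_bd (v (b i))
  choose s hs0 hs using fun i : Fin 3 => wad_bd (v (2 * z i))
  obtain ⟨R, hR⟩ : ∃ R, R = r 0 + r 1 + r 2 + s 0 + s 1 + s 2 := ⟨_, rfl⟩
  have hrR : ∀ i, r i ≤ R := by
    intro i
    have := hr0 0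
    have := hr0 1
    have := hr0 2
    have := hs0 0
    have := hs0 1
    have := hs0 2
    fin_cases i <;> simp only [Fin.zero_eta, Fin.mk_one, Fin.reduceFinMk] <;> omega
  have hsR : ∀ i, s i ≤ R := by
    intro i
    have := hr0 0
    have := hr0 1
    have := hr0 2
    have := hs0 0
    have := hs0 1
    have := hs0 2
    fin_cases i <;> simp only [Fin.zero_eta, Fin.mk_one, Fin.reduceFinMk] <;> omega
  have hR0 : 0 ≤ R := (hr0 0).trans (hrR 0)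
  refine ⟨max 0 (2 * R - log (v c) + 1), fun y hy => ?_⟩
  have hn0 := le_max_left 0 (2 * R - log (v c) + 1)
  have hn1 := le_max_right 0 (2 * R - log (v c) + 1)
  obtain ⟨n, hn⟩ : ∃ n, n = max 0 (2 * R - log (v c) + 1) := ⟨_, rfl⟩
  rw [← hn] at hn0 hn1 hy
  have hterm : ∀ i, v (b i * (y i ^ 2 - z i ^ 2)) ≤ exp (R + (R + (-n))) := by
    intro i
    have h1 : y i ^ 2 - z i ^ 2 = (2 * z i - (z i - y i)) * -(z i - y i) := by ring
    have h3 : v (2 * z i - (z i - y i)) ≤ exp R := by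
      refine (Valuation.map_sub v _ _).trans (max_le ?_ ?_)
      · exact (hs i).trans (exp_le_exp.2 (hsR i))
      · exact (hy i).trans (exp_le_exp.2 (by omega))
    rw [h1, map_mul, map_mul, Valuation.map_neg, exp_add, exp_add]
    exact mul_le_mul' ((hr i).trans (exp_le_exp.2 (hrR i))) (mul_le_mul' h3 (hy i))
  have hsum : v (∑ i, b i * (y i ^ 2 - z i ^ 2)) ≤ exp (R + (R + (-n))) :=
    Valuation.map_sum_le v fun i _ => hterm i
  have hlt : v (∑ i, b i * (y i ^ 2 - z i ^ 2)) < v c := by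
    refine lt_of_le_of_lt hsum ?_
    conv_rhs => rw [← exp_log hvc]
    rw [exp_lt_exp]
    omega
  have heq : (∑ i, b i * y i ^ 2) / c - 1 = (∑ i, b i * (y i ^ 2 - z i ^ 2)) / c := by
    rw [eq_div_iff hc, sub_mul, div_mul_cancel₀ _ hc, one_mul]
    conv_lhs => rw [hcdef]
    rw [← Finset.sum_sub_distrib]
    exact Finset.sum_congr rfl fun i _ => by ring
  rw [heq, map_div₀]
  exact (div_lt_one₀ (pos_iff_ne_zero.2 hvc)).2 hlt

theorem conic_class [Finite F] (hq : 2 ∣ Nat.card F - 1) (S : Finset (Pl F)) {a z₀ : Fin 3 → RatFunc F}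
    (ha : ∀ i, a i ≠ 0) (hz : z₀ ≠ 0) (h : ∑ i, a i * z₀ i ^ 2 = 0) (z : ∀ w : Pl F, Fin 3 → Kw F w)
    (hz0 : ∀ w ∈ S, ∑ i, iw w (a i) * z w i ^ 2 = 0) (b : Fin 3 → RatFunc F)
    (hb : ∀ w ∈ S, ∑ i, iw w (b i) * z w i ^ 2 ≠ 0) :
    ∃ y : Fin 3 → RatFunc F, ∑ i, a i * y i ^ 2 = 0 ∧ ∀ w ∈ S, ∃ v : Kw F w, v ≠ 0 ∧
      ∑ i, iw w (b i) * iw w (y i) ^ 2 = (∑ i, iw w (b i) * z w i ^ 2) * v ^ 2 := by
  classical
  have h2 : (2 : F) ≠ 0 := by
    intro h0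
    apply H74.FS.two_ne_w hq (none : Pl F)
    have h1 : (iw (none : Pl F)).comp (algebraMap F (RatFunc F)) 2 = 0 := by
      rw [h0, map_zero]
    rw [map_ofNat] at h1
    exact h1
  have hex : ∀ w : Pl F, ∃ n : ℤ, w ∈ S → ∀ y : Fin 3 → Kw F w,
      (∀ i, vw w (z w i - y i) ≤ exp (-n)) →
        vw w ((∑ i, iw w (b i) * y i ^ 2) / (∑ i, iw w (b i) * z w i ^ 2) - 1) < 1 := by
    intro w
    by_cases hw : w ∈ S
    · obtain ⟨n, hn⟩ := wad_cont (vw w) (fun i => iw w (b i)) (z w) (hb w hw)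
      exact ⟨n, fun _ => hn⟩
    · exact ⟨0, fun h => absurd h hw⟩
  choose n hn using hex
  obtain ⟨M, hM⟩ := (S.image n).exists_le
  obtain ⟨y, hy0, hy⟩ := conic_approx h2 S ha hz h z hz0 M
  refine ⟨y, hy0, fun w hw => ?_⟩
  have h3 := hn w hw (fun i => iw w (y i)) (fun i => (hy w hw i).trans (by
    rw [exp_le_exp, neg_le_neg_iff]
    exact hM _ (Finset.mem_image_of_mem n hw)))
  obtain ⟨v, hv0, hv⟩ := H74.FS.sq_near hq h3
  refine ⟨v, hv0, ?_⟩
  rw [← hv, mul_div_cancel₀ _ (hb w hw)]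

end Pool.Agent.H13.WA
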